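import Pool.Agent.R773.FC.Fin

/-!
# `Ω`-stability and periodic points in Franks classes, all classes `C^r`

`DiffM n N r` is `Diff^r(N)` and `strongTop n N r` its `C^r` topology (`Pool/Agent/H718R2/G0.lean`),
`NonWand`: `Pool/Agent/W564/SC/Defs.lean`, `IsHypLin`: `Pool/Agent/H922R3/CL/Defs.lean`,
`OmegaStable`, `Omega`, `OmegaConj`: `Pool/Agent/TH80/OMS/Defs.lean`, `Per`:
`Pool/Agent/TH80/OMS/SymDefs.lean`, `Skew`, `bar`: `Pool/Agent/R773/FC/Tor.lean`, `semi`: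
`Pool/Agent/R773/FC/Main.lean`.
-/

set_option autoImplicit false

open scoped Manifold ContDiff Topology

universe u v

namespace Pool.Agent.Results.MP_4a0782_an.FranksClasses

open Pool.Agent.H718R2.G Pool.Agent.W564.SC Pool.Agent.TH80.OMS Pool.Agent.R773.FC
open Pool.Agent.H922R3.CL (IsHypLin)

/-- `F` is structurally stable in `Diff^r(N)`: all `G` in a neighbourhood of `F` are topologically
conjugate to `F`. -/
def StructStable (n : ℕ) (N : Type u) [TopologicalSpace N] [ChartedSpace (V n) N] (r : ℕ∞)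
    (F : DiffM n N r) : Prop :=
  ∃ U : Set (DiffM n N r), IsOpen[strongTop n N r] U ∧ F ∈ U ∧
    ∀ G ∈ U, ∃ h : N ≃ₜ N, ∀ x, h (F x) = G (h x)

/-- Let `N` be a closed manifold, `1 ≤ r ≤ ∞`, and let `F ∈ Diff^r(N)` be structurally stable or only
`Ω`-stable. Let `K = Θ(B × 𝕋)` be a compact set with `F(K) = K`, homeomorphic to the product of a
compact metric space `B` and a torus `𝕋 = W / Λ` of positive dimension, on which `F` is
`(b, y) ↦ (f b, A y + φ (b, y))`, where `f` is an ARBITRARY homeomorphism of `B`, `A` a hyperbolic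
automorphism of `𝕋`, and `φ : B × 𝕋 → W = ℝ^k` any continuous map (so the fibre maps are any maps
homotopic to `A`, depending continuously on `b`).

(1) There is exactly one continuous `ψ : B × 𝕋 → W` with `ψ ∘ F + φ = A ψ`; so
`h (b, y) = y + ψ (b, y)` is a semiconjugacy, `h ∘ F = A ∘ h`. Over every nonwandering point `b` of
`f` each fibre of `h` contains a limit of periodic points of `F`: for all `u ∈ 𝕋` there is a `y` with
`h (b, y) = u` such that the point `(b, y)` is in the closure of `Per(F)`.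
(2) If `K = N` then the nonwandering points of `f` are limits of periodic points of `f`. -/
theorem result {n : ℕ} {N : Type u} [TopologicalSpace N] [T2Space N] [CompactSpace N]
    [ChartedSpace (V n) N] [IsManifold (𝓡 n) ∞ N] (r : ℕ∞) (hr : 1 ≤ r) (F : DiffM n N r)
    (hs : StructStable n N r F ∨ OmegaStable n N r F)
    {B : Type v} [MetricSpace B] [CompactSpace B]
    {W : Type} [NormedAddCommGroup W] [NormedSpace ℝ W] [FiniteDimensional ℝ W] [Nontrivial W]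
    {Λ : AddSubgroup W} [DiscreteTopology Λ] [IsClosed (Λ : Set W)]
    (hΛ : ∃ C : ℝ, ∀ z : W, ∃ u ∈ Λ, ‖z - u‖ ≤ C)
    (A : W ≃L[ℝ] W) (hA : IsHypLin A) (hAΛ : ∀ u, u ∈ Λ ↔ A u ∈ Λ)
    (f : B ≃ₜ B) (φ : B × (W ⧸ Λ) → W) (hφ : Continuous φ)
    (T : (B × (W ⧸ Λ)) ≃ₜ (B × (W ⧸ Λ))) (hT : Skew A Λ f φ T)
    (Θ : B × (W ⧸ Λ) → N) (hΘ : Topology.IsEmbedding Θ) (hF : ∀ p, F (Θ p) = Θ (T p)) :
    (∃ ψ : B × (W ⧸ Λ) → W, (Continuous ψ ∧ ∀ p, ψ (T p) + φ p = A (ψ p)) ∧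
      (∀ ψ' : B × (W ⧸ Λ) → W, Continuous ψ' → (∀ p, ψ' (T p) + φ p = A (ψ' p)) → ψ' = ψ) ∧
      (∀ p, semi ψ (T p) = bar A hAΛ (semi ψ p)) ∧
      ∀ b : B, NonWand f b → ∀ u : W ⧸ Λ, ∃ y : W ⧸ Λ, semi ψ (b, y) = u ∧
        Θ (b, y) ∈ closure (Per F)) ∧
    (Function.Surjective Θ → ∀ b : B, NonWand f b → b ∈ closure {b | IsPer f b}) := by
  have h : OmegaStable n N r F := by
    rcases hs with ⟨U, hU, hFU, h⟩ | h
    · refine ⟨U, hU, hFU, fun G hG => ?_⟩
      obtain ⟨e, he⟩ := h G hG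
      exact Pool.Agent.Y504.CO.omegaConj_of_conj e he
    · exact h
  obtain ⟨ψ, h1, h2, h3, h4⟩ := closing hΛ hr F hA hAΛ f hφ T hT hΘ hF
  have h5 : ∀ b : B, NonWand f b → ∀ u : W ⧸ Λ, ∃ y : W ⧸ Λ, semi ψ (b, y) = u ∧
      Θ (b, y) ∈ closure (Per F) := by
    intro b hb u
    obtain ⟨y, hy, -, hl⟩ := h4 b hb u
    exact ⟨y, hy, per_of_lclosable hr h hl⟩
  refine ⟨⟨ψ, h1, h2, h3, h5⟩, fun hs b hb => ?_⟩
  obtain ⟨y, -, hy⟩ := h5 b hb 0
  exact base_closure F f hT hΘ hF hs hy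

end Pool.Agent.Results.MP_4a0782_an.FranksClasses
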