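import Pool.Agent.R773.FC.RetA

/-!
# `Ω`-stability and products of an arbitrary map with a mixing map

`DiffM n N r` is `Diff^r(N)` and `strongTop n N r` its `C^r` topology (`Pool/Agent/H718R2/G0.lean`),
`NonWand`, `PerShadow`, `ChainMix`: `Pool/Agent/W564/SC/Defs.lean`, `OmegaStable`, `Omega`, `OmegaConj`:
`Pool/Agent/TH80/OMS/Defs.lean`, `Per`: `Pool/Agent/TH80/OMS/SymDefs.lean`.
-/

set_option autoImplicit false

open scoped Manifold ContDiff Topology

universe u v w

namespace Pool.Agent.Results.MP_4a0782_an.MixingFactors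

open Pool.Agent.H718R2.G Pool.Agent.W564.SC Pool.Agent.TH80.OMS Pool.Agent.R773.FC

/-- Let `N` be a closed manifold, `1 ≤ r ≤ ∞`, and let `F ∈ Diff^r(N)` be `Ω`-stable (for instance
structurally stable). Let `Θ` be an embedding of a product `X × Y` of compact metric spaces onto an
`F`-invariant subset of `N` which conjugates `F` to `f × h`, where `f` is an ARBITRARY homeomorphism of
`X` and `h` is a chain mixing homeomorphism of `Y` (not a point) with the periodic shadowing property.
(1) All points `Θ(x, y)` over nonwandering points `x` of `f` are limits of periodic points of `F`.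
(2) If `Θ(X × Y) = N` then the periodic points of `f` are dense in its nonwandering set. -/
theorem result {n : ℕ} {N : Type u} [TopologicalSpace N] [T2Space N] [CompactSpace N]
    [ChartedSpace (V n) N] [IsManifold (𝓡 n) ∞ N] (r : ℕ∞) (hr : 1 ≤ r) (F : DiffM n N r)
    (hF : OmegaStable n N r F)
    {X : Type v} {Y : Type w} [MetricSpace X] [CompactSpace X] [MetricSpace Y] [CompactSpace Y]
    [Nontrivial Y] (f : X ≃ₜ X) (h : Y ≃ₜ Y) (hsh : PerShadow h) (hmix : ChainMix h)
    (Θ : X × Y → N) (hΘ : Topology.IsEmbedding Θ) (hconj : ∀ x y, F (Θ (x, y)) = Θ (f x, h y)) :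
    (∀ x : X, NonWand f x → ∀ y : Y, Θ (x, y) ∈ closure (Per F)) ∧
    (Function.Surjective Θ → ∀ x : X, NonWand f x → x ∈ closure {x | IsPer f x}) := by
  have h1 : ∀ x : X, NonWand f x → ∀ y : Y, Θ (x, y) ∈ closure (Per F) := by
    intro x hx y
    obtain ⟨χ, hχ⟩ := Pool.Agent.W699.SC.gc n N (Θ (x, y))
    exact per_of_lclosable hr hF (lclosable_of_ret hr F hχ
      (ret_prod Pool.Agent.W816.SC.flex n N r F X Y f h hsh hmix Θ hΘ hconj x y hx χ hχ))
  refine ⟨h1, fun hs x hx => ?_⟩
  obtain ⟨y⟩ : Nonempty Y := inferInstance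
  have hy := h1 x hx y
  rw [mem_closure_iff] at hy ⊢
  intro O hO hxO
  have h2 : IsOpen (Prod.fst ⁻¹' O : Set (X × Y)) := hO.preimage continuous_fst
  obtain ⟨O', hO', hO''⟩ := hΘ.isOpen_iff.1 h2
  have h3 : Θ (x, y) ∈ O' := by
    have : (x, y) ∈ Θ ⁻¹' O' := by rw [hO'']; exact hxO
    exact this
  obtain ⟨z, hz, m, hm, hmz⟩ := hy O' hO' h3
  obtain ⟨⟨x', y'⟩, rfl⟩ := hs z
  refine ⟨x', ?_, m, hm, ?_⟩
  · have : (x', y') ∈ Θ ⁻¹' O' := hz
    rw [hO''] at this
    exact this
  · rw [Pool.Agent.W216.SC.iter_Θ hconj] at hmz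
    exact congrArg Prod.fst (hΘ.injective hmz)

end Pool.Agent.Results.MP_4a0782_an.MixingFactors
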