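import Pool.Agent.R773.FC.Slow

/-!
# Nonwandering points of `Ω`-stable diffeomorphisms which are not limits of periodic points

`DiffM n N r` is `Diff^r(N)` and `strongTop n N r` its `C^r` topology (`Pool/Agent/H718R2/G0.lean`),
`GoodChart n N χ z`: `χ` is a chart of the smooth structure of `N` with `χ z = 0` whose target contains
the closed unit ball (`Pool/Agent/W564/SC/Defs.lean`), `OmegaStable`, `Omega`, `OmegaConj`:
`Pool/Agent/TH80/OMS/Defs.lean`, `Per`: `Pool/Agent/TH80/OMS/SymDefs.lean`.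
-/

set_option autoImplicit false

open scoped Manifold ContDiff Topology

universe u

namespace Pool.Agent.Results.MP_4a0782_an.SlowReturns

open Pool.Agent.H718R2.G Pool.Agent.W564.SC Pool.Agent.TH80.OMS Pool.Agent.R773.FC

/-- Let `N` be a closed manifold, `2 ≤ r ≤ ∞`, and let `F ∈ Diff^r(N)` be `Ω`-stable (for instance
structurally stable). There are constants `C 0 ≤ C 1 ≤ ⋯`, depending only on `F`, such that every point
`z` which is not a limit of periodic points of `F` has a neighbourhood `W` in which all returns are at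
most exponentially fast: for some finite order `k ≤ r` and some `c > 0`,
`|F^m y - y| ≥ c exp(- C(k) m)` (in the chart `χ` at `z`) for all `y ∈ W` and all `m ≥ 1`. So the
periodic points are dense in `Ω(F)` if `Ω(F)` is the closure of the points with arbitrarily fast
exponential returns. -/
theorem result {n : ℕ} {N : Type u} [TopologicalSpace N] [T2Space N] [CompactSpace N]
    [ChartedSpace (V n) N] [IsManifold (𝓡 n) ∞ N] (r : ℕ∞) (hr : 2 ≤ r) (F : DiffM n N r)
    (hF : OmegaStable n N r F) :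
    ∃ C : ℕ → ℝ, Monotone C ∧ ∀ z : N, z ∉ closure (Per F) →
      ∀ χ : OpenPartialHomeomorph N (V n), GoodChart n N χ z →
      ∃ k : ℕ, (k : ℕ∞) ≤ r ∧ ∃ W ∈ 𝓝 z, W ⊆ χ.source ∧ ∃ c : ℝ, 0 < c ∧ ∀ y ∈ W, ∀ m : ℕ,
        1 ≤ m → F^[m] y ∈ χ.source → c * Real.exp (-(C k * m)) ≤ ‖χ (F^[m] y) - χ y‖ := by
  have hr1 : (1 : ℕ∞) ≤ r := le_trans (by norm_num) hr
  obtain ⟨C, hC, h⟩ := slow t_ACM t_ABS n N r hr F
  refine ⟨C, hC, fun z hz χ hχ => ?_⟩
  by_contra hcon
  apply hz
  by_cases hper : IsPer F z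
  · exact subset_closure hper
  apply per_of_lclosable hr1 hF
  apply lclosable_of_retK hr1 F hχ
  intro k hk1 hkr
  rcases h z χ hχ k hk1 with h1 | h1 | ⟨W, hW, h1, h2⟩
  · exact h1
  · exact absurd h1 hper
  · exact absurd ⟨k, hkr, W, hW, h1, h2⟩ hcon

end Pool.Agent.Results.MP_4a0782_an.SlowReturns
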