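import Pool.Agent.R775.HL.TorDense

/-!
# `Ω`-stable diffeomorphisms which are hyperbolic transversally to tori mapped by affine maps

`V n = ℝⁿ`, `DiffM n N r = Diff^r(N)`, `strongTop n N r` is its `C^r` topology
(`Pool/Agent/H718R2/G0.lean`); `OmegaStable`, `Omega`, `Per` (`Pool/Agent/TH80/OMS/Defs.lean`,
`SymDefs.lean`): `Ω`-stability, nonwandering set, periodic points; `CR F` is the chain recurrent set
(`Pool/Agent/R774/OS2.lean`). Structurally stable diffeomorphisms are `Ω`-stable.

`TorusTrans n F a L K` (`Pool/Agent/R775/HL/Tor.lean`, `Defs.lean`): the torus `ℝᵃ/ℤᵃ` acts smoothly on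
`N`, freely on an open invariant set `O`, and `F (R s y) = R (L s) (F y)` for `y ∈ O` with a linear map
`L`, so that `F` maps the leaves (the orbits) in `O` to leaves by affine maps with linear part `L`; the
closed set `K ⊆ O` is a union of leaves, `F K ⊆ K`, and on `K` the map `F` is hyperbolic transversally to
the leaves: there are continuous quadratic forms `Q_x(v) = B_x (De v, De v)`, of any signature, which do
not change in the directions of the leaves and increase strictly under `DF` on all other vectors. Nothing
is assumed on `L`. For `a = 0` this says that `K` is a hyperbolic set.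

`HypLin L`: no complex eigenvalue of `L` has modulus one.
-/

set_option autoImplicit false

open scoped Manifold ContDiff Topology

namespace Pool.Agent.Results.MP_4a0782_an.ToralLeaves

open Pool.Agent.H718R2.G Pool.Agent.R775.HL Pool.Agent.R774.OS Pool.Agent.TH80.OMS

/-- The linear parts of all nonempty closed invariant sets of `F` which are hyperbolic transversally to
free torus orbits mapped by affine maps are hyperbolic. -/
def HypParts (n : ℕ) {N : Type} [TopologicalSpace N] [ChartedSpace (V n) N] (F : N → N) : Prop :=
  ∀ (a : ℕ) (L : V a →ₗ[ℝ] V a) (K : Set N), TorusTrans n F a L K → K.Nonempty → HypLin L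

/-- The chain recurrent set of `F` is the disjoint union of finitely many sets which are hyperbolic
transversally to torus orbits mapped by affine maps, each with its own torus and linear part. -/
def ToralCR (n : ℕ) {N : Type} [TopologicalSpace N] [ChartedSpace (V n) N] (F : N → N) : Prop :=
  ∃ (ι : Type) (a : ι → ℕ) (L : ∀ i, V (a i) →ₗ[ℝ] V (a i)) (K : ι → Set N), Finite ι ∧
    (∀ i, TorusTrans n F (a i) (L i) (K i)) ∧ (∀ i j, i ≠ j → Disjoint (K i) (K j)) ∧
      ⋃ i, K i = CR F

/-- Let `N` be a closed manifold, `1 ≤ r ≤ ∞`, and let `F ∈ Diff^r(N)` be `Ω`-stable (for instance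
structurally stable).

1. For all `G` in a neighbourhood of `F` (for instance `G = F`): if some nonempty closed invariant set of
   `G` is hyperbolic transversally to free torus orbits mapped by affine maps, then their linear part is
   hyperbolic.
2. If the chain recurrent set of `F` is the disjoint union of finitely many such sets (each with its
   own torus, of any dimension, and linear part), then the chain recurrent set, the nonwandering set and
   the closure of the set of the periodic points are equal. -/
theorem result {n : ℕ} {N : Type} [TopologicalSpace N] [T2Space N] [CompactSpace N]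
    [ChartedSpace (V n) N] [IsManifold (𝓡 n) ∞ N] (r : ℕ∞) (hr : 1 ≤ r) (F : DiffM n N r)
    (hF : OmegaStable n N r F) :
    (∃ U : Set (DiffM n N r), IsOpen[strongTop n N r] U ∧ F ∈ U ∧ ∀ G ∈ U, HypParts n G) ∧
      (ToralCR n F → CR F = closure (Per F) ∧ Omega F = closure (Per F)) :=
  ⟨tor_hyp r hr hF, fun ⟨_, _, _, _, hfin, hK, hdis, hun⟩ => by
    have := hfin
    exact (tor_main r hr hF hK hdis hun).2⟩

end Pool.Agent.Results.MP_4a0782_an.ToralLeaves
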